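import Pool.Agent.H24.LV.Targets
import Pool.Agent.H58.CLV.TO

/-!
# Row LC: the number of the lonely stars over a line (helper63)
-/

set_option autoImplicit false

open Finset MeasureTheory

namespace Pool.Agent.H63.LVP

open Pool.Agent.H24.CL Pool.Agent.H24.LV

theorem rTO' : T_TO := Pool.Agent.H58.CLV.pf_TO

theorem mem_H {k q r : ℕ} {a : X k} : a ∈ H k q r ↔ (q ^ r) • a = 0 := by
  unfold H
  rw [AddMonoidHom.mem_ker, nsmulAddMonoidHom_apply]

theorem kr_H {k D x : ℕ} (hD : 1 ≤ D) {a : X k} (h : a ∈ Kr k D x) : a ∈ H k D k := by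
  unfold Kr at h
  exact ((rTO' k D hD).2.1 k a).mp (Finset.mem_filter.mp h).1

theorem sub_H (hCO : L_CO) {k p q w : ℕ} (hpq : q.Coprime p) {δ : X k} (h1 : δ ∈ H k p k)
    (h2 : phi q w δ ∈ H k p 1) : δ ∈ H k p 1 := by
  rw [mem_H] at *
  have h3 : phi q w (p ^ 1 • δ) = 0 := by
    rw [map_nsmul]
    exact h2
  exact hCO.2.2.1 k q w (p ^ k) (p ^ 1 • δ) (Nat.Coprime.pow_right k hpq)
    (by rw [smul_comm, h1, smul_zero]) h3

theorem DS_erase {S : Finset ℕ} {p : ℕ} (hp : p ∈ S) : p * DS (S.erase p) = DS S := by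
  unfold DS
  exact Finset.mul_prod_erase S (fun p => p) hp

theorem DS_pos {S : Finset ℕ} (hS : ∀ p ∈ S, p.Prime) : 0 < DS S :=
  Finset.prod_pos (fun p hp => (hS p hp).pos)

theorem DS_div {S : Finset ℕ} {p : ℕ} (hS : ∀ p ∈ S, p.Prime) (hp : p ∈ S) :
    DS S / p = DS (S.erase p) := by
  rw [← DS_erase hp]
  exact Nat.mul_div_cancel_left _ (hS p hp).pos

theorem inj0 {k : ℕ} {S : Finset ℕ} (hS : ∀ p ∈ S, p.Prime) {δ : X k} (h0 : δ ∈ H k (DS S) k)
    (h1 : ∀ p ∈ S, δ ∈ H k (DS S / p) k) : δ = 0 := by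
  have hn : addOrderOf δ = 1 := by
    by_contra hc
    obtain ⟨r, hr, hd⟩ := Nat.exists_prime_and_dvd hc
    have h2 : r ∣ DS S := hr.dvd_of_dvd_pow
      (hd.trans (addOrderOf_dvd_of_nsmul_eq_zero (mem_H.mp h0)))
    unfold DS at h2
    obtain ⟨s, hs, hrs⟩ := (Prime.dvd_finsetProd_iff hr.prime _).mp h2
    have : r = s := (Nat.prime_dvd_prime_iff_eq hr (hS s hs)).mp hrs
    subst this
    have h3 : r ∣ DS S / r := hr.dvd_of_dvd_pow
      (hd.trans (addOrderOf_dvd_of_nsmul_eq_zero (mem_H.mp (h1 r hs))))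
    rw [DS_div hS hs] at h3
    unfold DS at h3
    obtain ⟨s, hs', hrs⟩ := (Prime.dvd_finsetProd_iff hr.prime _).mp h3
    have : r = s := (Nat.prime_dvd_prime_iff_eq hr (hS s (Finset.mem_of_mem_erase hs'))).mp hrs
    exact Finset.ne_of_mem_erase hs' this.symm
  exact AddMonoid.addOrderOf_eq_one_iff.mp hn

/-- the component -/
noncomputable def cp {k : ℕ} (S : Finset ℕ) (y p : ℕ) (κ : X k) : X k :=
  phi (DS S / p) (y % (DS S / p)) κ

theorem cp_phi (hCO : L_CO) {k : ℕ} {S : Finset ℕ} {y p : ℕ} (hp : p ∈ S) (κ : X k) :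
    phi p (y / (DS S / p)) (cp S y p κ) = phi (DS S) y κ := by
  unfold cp
  rw [hCO.1, Nat.mod_add_div, Nat.mul_div_cancel' (Dvd.intro _ (DS_erase hp))]

theorem cp_add {k : ℕ} (S : Finset ℕ) (y p : ℕ) (b κ : X k) :
    cp S y p (b + κ) = cp S y p b + cp S y p κ := by
  unfold cp
  rw [map_add]

theorem cntA (hCO : L_CO) {k : ℕ} {S : Finset ℕ} (hS : ∀ p ∈ S, p.Prime) (y : ℕ)
    (Q : ℕ → X k → Prop) [DecidablePred fun κ => ∀ p ∈ S, Q p (cp S y p κ)]
    [∀ p, DecidablePred (Q p)] :
    ((Kr k (DS S) y).filter (fun κ => ∀ p ∈ S, Q p (cp S y p κ))).card ≤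
      ∏ p ∈ S, ((Kr k p (y / (DS S / p))).filter (Q p)).card := by
  rw [← Finset.card_pi]
  apply Finset.card_le_card_of_injOn (fun κ p _ => cp S y p κ)
  · intro κ hκ
    rw [Finset.mem_coe, Finset.mem_filter] at hκ
    rw [Finset.mem_coe, Finset.mem_pi]
    intro p hp
    rw [Finset.mem_filter]
    refine ⟨?_, hκ.2 p hp⟩
    rw [(hCO.2.2.2.1 k p _ (hS p hp).one_le).2, cp_phi hCO hp,
      ← (hCO.2.2.2.1 k (DS S) y (DS_pos hS)).2]
    exact hκ.1
  · intro κ hκ κ' hκ' he
    rw [Finset.mem_coe, Finset.mem_filter] at hκ hκ'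
    have h1 := ((hCO.2.2.2.1 k (DS S) y (DS_pos hS)).2 κ).mp hκ.1
    have h2 := ((hCO.2.2.2.1 k (DS S) y (DS_pos hS)).2 κ').mp hκ'.1
    have h3 : κ - κ' = 0 := by
      apply inj0 hS
      · apply kr_H (DS_pos hS) (x := y)
        rw [(hCO.2.2.2.1 k (DS S) y (DS_pos hS)).2, map_sub, h1, h2, sub_zero]
      · intro p hp
        have h4 : cp S y p κ = cp S y p κ' := congrFun (congrFun he p) hp
        have h5 : 0 < DS S / p := by
          rw [DS_div hS hp]
          exact DS_pos fun p hp => hS p (Finset.mem_of_mem_erase hp)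
        apply kr_H h5 (x := y % (DS S / p))
        rw [(hCO.2.2.2.1 k (DS S / p) _ h5).2, map_sub]
        unfold cp at h4
        rw [h4, sub_self]
    exact sub_eq_zero.mp h3

open Classical in
theorem cntB (hCO : L_CO) {k p q v w : ℕ} {G : Set (X k)} {ν : ℝ} (hp : 1 ≤ p)
    (hpq : q.Coprime p) (hν : CntM (H k p k) (H k p 1) G ν) (b : X k) :
    (((Kr k p v).filter (fun κ => phi q w (b + κ) ∈ G)).card : ℝ) ≤ ν * (p : ℝ) ^ k := by
  set F := (Kr k p v).filter (fun κ => phi q w (b + κ) ∈ G) with hF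
  let g : X k → X k ⧸ H k p 1 := fun a => (a : X k ⧸ H k p 1)
  have hg : ∀ a c : X k, g a = g c ↔ a - c ∈ H k p 1 := by
    intro a c
    show (a : X k ⧸ H k p 1) = (c : X k ⧸ H k p 1) ↔ _
    rw [QuotientAddGroup.eq, ← neg_mem_iff]
    have : -(-a + c) = a - c := by abel
    rw [this]
  have h1 : F.card ≤ p ^ k * (F.image g).card := by
    apply Finset.card_le_mul_card_image
    intro i hi
    obtain ⟨κ₀, hκ₀, rfl⟩ := Finset.mem_image.mp hi
    have h2 : (HF k p 1).card = p ^ (1 * k) := (rTO' k p hp).2.2.1 1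
    rw [one_mul] at h2
    rw [← h2]
    apply Finset.card_le_card_of_injOn (fun κ => κ - κ₀)
    · intro κ hκ
      rw [Finset.mem_coe, Finset.mem_filter] at hκ
      rw [Finset.mem_coe, (rTO' k p hp).2.1]
      exact (hg κ κ₀).mp hκ.2
    · intro κ _ κ' _ he
      exact sub_left_injective he
  have h2 : ((F.image g).card : ℝ) ≤ ν := by
    have hs : ∀ i : (F.image g : Finset (X k ⧸ H k p 1)), ∃ κ ∈ F, g κ = i.1 :=
      fun i => Finset.mem_image.mp i.2
    choose s hs1 hs2 using hs
    have hd : ∀ i j, s i - s j ∈ H k p k := by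
      intro i j
      exact sub_mem (kr_H hp (Finset.mem_filter.mp (hs1 i)).1)
        (kr_H hp (Finset.mem_filter.mp (hs1 j)).1)
    have hphi : ∀ i j, phi q w (b + s i) - phi q w (b + s j) = phi q w (s i - s j) := by
      intro i j
      rw [← map_sub]
      congr 1
      abel
    have hij : ∀ i j, phi q w (b + s i) - phi q w (b + s j) ∈ H k p 1 → i = j := by
      intro i j h
      rw [hphi] at h
      have h3 := sub_H hCO hpq (hd i j) h
      rw [← hg, hs2, hs2] at h3
      exact Subtype.ext h3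
    have h3 := hν ((F.image g).attach.image fun i => phi q w (b + s i)) ?_ ?_ ?_
    · rw [Finset.card_image_of_injective, Finset.card_attach] at h3
      · exact h3
      · intro i j he
        apply hij i j
        have he' : phi q w (b + s i) = phi q w (b + s j) := he
        rw [he', sub_self]
        exact zero_mem _
    · intro y hy
      obtain ⟨i, -, rfl⟩ := Finset.mem_image.mp hy
      exact (Finset.mem_filter.mp (hs1 i)).2
    · intro y hy y' hy'
      obtain ⟨i, -, rfl⟩ := Finset.mem_image.mp hy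
      obtain ⟨j, -, rfl⟩ := Finset.mem_image.mp hy'
      rw [hphi, mem_H, ← map_nsmul, mem_H.mp (hd i j), map_zero]
    · intro y hy y' hy' h
      obtain ⟨i, -, rfl⟩ := Finset.mem_image.mp hy
      obtain ⟨j, -, rfl⟩ := Finset.mem_image.mp hy'
      rw [hij i j h]
  have h3 : (F.card : ℝ) ≤ (p : ℝ) ^ k * ((F.image g).card : ℝ) := by exact_mod_cast h1
  calc (F.card : ℝ) ≤ (p : ℝ) ^ k * ((F.image g).card : ℝ) := h3
    _ ≤ (p : ℝ) ^ k * ν := mul_le_mul_of_nonneg_left h2 (by positivity)
    _ = ν * (p : ℝ) ^ k := mul_comm _ _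

theorem ncard_eq {α : Type*} (s : Finset α) (Q : α → Prop) [DecidablePred Q] :
    Nat.card {κ : s // Q κ.1} = (s.filter Q).card := by
  rw [← Fintype.card_coe, ← Nat.card_eq_fintype_card]
  apply Nat.card_congr
  refine (Equiv.subtypeSubtypeEquivSubtypeInter (fun x => x ∈ s) Q).trans ?_
  exact Equiv.subtypeEquivRight (fun x => (Finset.mem_filter).symm)

/-- the crossing of the star at `z` with the `p`-line -/
def Cr {k : ℕ} (q : ℕ) (V G : Set (X k)) (c : X k) (p w z : ℕ) (a : X k) : Prop :=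
  phi q z c ∈ V ∧ phi q ((w + p * z) % q) a ∈ G

theorem star_iff (hCO : L_CO) {k : ℕ} {S : Finset ℕ} {V : Set (X k)} {Gd : ℕ → Set (X k)}
    {q : ℕ} (hq : q ∉ S) (hqp : q.Prime) (hS : ∀ p ∈ S, p.Prime) {b κ : X k} {y z : ℕ}
    (hy : y < DS S) (hb : phi (DS S) y b ∈ Gd q) (hκ : phi (DS S) y κ = 0) :
    Star (insert q S) V Gd (b + κ) (y + DS S * z) ↔
      phi q z (phi (DS S) y b) ∈ V ∧ ∀ p ∈ S, phi q ((y / (DS S / p) + p * z) % q)
        (cp S y p b + cp S y p κ) ∈ Gd p := by
  have hD : DS (insert q S) = q * DS S := by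
    unfold DS
    exact Finset.prod_insert hq
  have hc : phi (DS S) y (b + κ) = phi (DS S) y b := by rw [map_add, hκ, add_zero]
  have h1 : phi (DS (insert q S)) (y + DS S * z) (b + κ) = phi q z (phi (DS S) y b) := by
    rw [hD, ← hCO.1 k q (DS S) z y, hc]
  have h2 : phi (DS (insert q S) / q) ((y + DS S * z) % (DS (insert q S) / q)) (b + κ) =
      phi (DS S) y b := by
    rw [hD, Nat.mul_div_cancel_left _ hqp.pos, Nat.add_mul_mod_self_left, Nat.mod_eq_of_lt hy, hc]
  have h3 : ∀ p ∈ S, phi (DS (insert q S) / p) ((y + DS S * z) % (DS (insert q S) / p)) (b + κ) =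
      phi q ((y / (DS S / p) + p * z) % q) (cp S y p b + cp S y p κ) := by
    intro p hp
    have hE := DS_div hS hp
    have hE2 := DS_erase hp
    have hEp : 0 < DS (S.erase p) := DS_pos fun p hp => hS p (Finset.mem_of_mem_erase hp)
    have e1 : DS (insert q S) / p = q * DS (S.erase p) := by
      rw [hD, ← hE2, show q * (p * DS (S.erase p)) = p * (q * DS (S.erase p)) by ring,
        Nat.mul_div_cancel_left _ (hS p hp).pos]
    have e2 : y + DS S * z = y + DS (S.erase p) * (p * z) := by
      rw [← hE2]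
      ring
    rw [← cp_add]
    unfold cp
    rw [e1, hE, hCO.1, e2, mul_comm q (DS (S.erase p)), Nat.mod_mul, Nat.add_mul_mod_self_left,
      Nat.add_mul_div_left _ _ hEp]
  unfold Pool.Agent.H24.LV.Star
  rw [h1]
  constructor
  · rintro ⟨g1, g2⟩
    refine ⟨g1, fun p hp => ?_⟩
    rw [← h3 p hp]
    exact g2 p (Finset.mem_insert_of_mem hp)
  · rintro ⟨g1, g2⟩
    refine ⟨g1, fun p hp => ?_⟩
    rcases Finset.mem_insert.mp hp with rfl | hp
    · rw [h2]
      exact hb
    · rw [h3 p hp]
      exact g2 p hp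

theorem dbl {α β : Type*} (A : Finset α) (B : Finset β) (R : α → β → Prop)
    [∀ a z, Decidable (R a z)] :
    ∑ z ∈ B, ((A.filter (fun a => R a z)).card : ℝ) =
      ∑ a ∈ A, ((B.filter (fun z => R a z)).card : ℝ) := by
  simp only [Finset.card_filter, Nat.cast_sum]
  exact Finset.sum_comm

open Classical in
theorem lonely_le {k : ℕ} {S : Finset ℕ} {q : ℕ} {V : Set (X k)} {Gd : ℕ → Set (X k)} {kap' : ℝ}
    (hkap : 0 < kap') {y : ℕ} (hy : y < DS S) (b : X k) :
    (((range q).filter (fun z => Lonely S q V Gd kap' b (y + DS S * z))).card : ℝ) ≤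
      kap' * q := by
  rcases ((range q).filter (fun z => Lonely S q V Gd kap' b (y + DS S * z))).eq_empty_or_nonempty
    with h | h
  · rw [h, Finset.card_empty, Nat.cast_zero]
    positivity
  · obtain ⟨z₀, hz₀, hmin⟩ := Finset.exists_min_image _
      (fun z => hd (DS S) V (phi q ((y + DS S * z) % q) b)) h
    have h1 := (Finset.mem_filter.mp hz₀).2
    have h2 := h1.2
    have hm : (y + DS S * z₀) % DS S = y := by
      rw [Nat.add_mul_mod_self_left, Nat.mod_eq_of_lt hy]
    rw [hm] at h2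
    refine le_trans ?_ h2.le
    refine Nat.cast_le.mpr (Finset.card_le_card ?_)
    intro z hz
    have h3 := Finset.mem_filter.mp hz
    exact Finset.mem_filter.mpr ⟨h3.1, h3.2.1, hmin z hz⟩

open Classical in
theorem pf_LC (hCO : L_CO) (hCT : L_CT) : L_LC := by
  intro k S V Gd P ν m τ Ω kap kap' q hq hd hkap hkap1 hkap' b y hy hb
  have hS : ∀ p ∈ S, p.Prime := fun p hp => (hd.pr p (mem_insert_of_mem hp)).1
  have hqp : q.Prime := (hd.pr q (mem_insert_self q S)).1
  have hq0 : (0 : ℝ) < q := by exact_mod_cast hqp.pos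
  have hν0 : 0 ≤ ν := le_trans zero_le_one hd.hν
  have hDp := DS_pos hS
  have hker : ∀ κ ∈ Kr k (DS S) y, phi (DS S) y κ = 0 := fun κ hκ =>
    ((hCO.2.2.2.1 k (DS S) y hDp).2 κ).mp hκ
  set c := phi (DS S) y b with hc
  let w : ℕ → ℕ := fun p => y / (DS S / p)
  let bb : ℕ → X k := fun p => cp S y p b
  have hcop : ∀ p ∈ S, q.Coprime p := fun p hp =>
    (Nat.coprime_primes hqp (hS p hp)).mpr (fun h => hq (h ▸ hp))
  have hB : ∀ p ∈ S, ∀ z, (((Kr k p (w p)).filter
      (fun a => Cr q V (Gd p) c p (w p) z (bb p + a))).card : ℝ) ≤ ν * (p : ℝ) ^ k := by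
    intro p hp z
    refine le_trans ?_ (cntB hCO (hS p hp).one_le (hcop p hp)
      (hd.fib p (mem_insert_of_mem hp)) (bb p) (v := w p) (w := (w p + p * z) % q))
    refine Nat.cast_le.mpr (card_le_card ?_)
    intro a ha
    rw [mem_filter] at ha ⊢
    exact ⟨ha.1, ha.2.2⟩
  have hacr : ∀ p ∈ S, ∀ a ∈ Kr k p (w p), (q : ℝ) * acr p q V (Gd p) (bb p + a) (w p) =
      (((range q).filter (fun z => Cr q V (Gd p) c p (w p) z (bb p + a))).card : ℝ) := by
    intro p hp a ha
    have h1 : phi p (w p) (bb p + a) = c := by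
      rw [map_add, cp_phi hCO hp, ((hCO.2.2.2.1 k p (w p) (hS p hp).one_le).2 a).mp ha, add_zero]
    unfold acr
    rw [h1, mul_div_cancel₀ _ hq0.ne']
    refine congrArg Nat.cast (congrArg Finset.card (Finset.ext fun z => ?_))
    rw [mem_filter, mem_filter]
    exact Iff.rfl
  have hprod : ∀ T : Finset ℕ, ∏ p ∈ T, (ν * (p : ℝ) ^ k) = ν ^ T.card * (DS T : ℝ) ^ k := by
    intro T
    rw [Finset.prod_mul_distrib, Finset.prod_const, Finset.prod_pow]
    unfold DS
    push_cast
    rfl
  have hstar : ∀ κ ∈ Kr k (DS S) y, ∀ z, Star (insert q S) V Gd (b + κ) (y + DS S * z) →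
      ∀ p ∈ S, Cr q V (Gd p) c p (w p) z (bb p + cp S y p κ) := by
    intro κ hκ z h p hp
    have := (star_iff hCO hq hqp hS hy hb (hker κ hκ)).mp h
    exact ⟨this.1, this.2 p hp⟩
  refine ⟨?_, ?_⟩
  · have h1 : ∀ z ∈ range q, ((Nat.card {κ : Kr k (DS S) y // Star (insert q S) V Gd (b + κ.1)
        (y + DS S * z)} : ℕ) : ℝ) ≤ ν ^ S.card * (DS S : ℝ) ^ k := by
      intro z _
      rw [ncard_eq (Kr k (DS S) y) (fun κ => Star (insert q S) V Gd (b + κ) (y + DS S * z))]
      have h2 : ((Kr k (DS S) y).filter (fun κ => Star (insert q S) V Gd (b + κ)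
          (y + DS S * z))).card ≤ ∏ p ∈ S, ((Kr k p (w p)).filter
            (fun a => Cr q V (Gd p) c p (w p) z (bb p + a))).card := by
        refine le_trans (card_le_card ?_)
          (cntA hCO hS y (fun p a => Cr q V (Gd p) c p (w p) z (bb p + a)))
        intro κ hκ
        rw [mem_filter] at hκ ⊢
        exact ⟨hκ.1, hstar κ hκ.1 z hκ.2⟩
      calc _ ≤ ((∏ p ∈ S, ((Kr k p (w p)).filter
            (fun a => Cr q V (Gd p) c p (w p) z (bb p + a))).card : ℕ) : ℝ) := by
            exact_mod_cast h2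
        _ = ∏ p ∈ S, (((Kr k p (w p)).filter
            (fun a => Cr q V (Gd p) c p (w p) z (bb p + a))).card : ℝ) := by
            push_cast
            rfl
        _ ≤ ∏ p ∈ S, (ν * (p : ℝ) ^ k) :=
            Finset.prod_le_prod (fun _ _ => by positivity) (fun p hp => hB p hp z)
        _ = _ := hprod S
    calc _ ≤ ∑ z ∈ range q, ν ^ S.card * (DS S : ℝ) ^ k := sum_le_sum h1
      _ = _ := by
        rw [sum_const, card_range, nsmul_eq_mul]
        ring
  · intro hbad
    let sm : ℕ → X k → Prop := fun p a => acr p q V (Gd p) (bb p + a) (w p) < kap / 2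
    have h1 : ∀ z ∈ range q, ((Nat.card {κ : Kr k (DS S) y // Lonely S q V Gd kap' (b + κ.1)
        (y + DS S * z)} : ℕ) : ℝ) ≤
        ∑ p ∈ S, (((Kr k (DS S) y).filter (fun κ => Star (insert q S) V Gd (b + κ)
          (y + DS S * z) ∧ sm p (cp S y p κ))).card : ℝ) +
        (((Kr k (DS S) y).filter (fun κ => Lonely S q V Gd kap' (b + κ)
          (y + DS S * z) ∧ ∀ p ∈ S, ¬ sm p (cp S y p κ))).card : ℝ) := by
      intro z _
      rw [ncard_eq (Kr k (DS S) y) (fun κ => Lonely S q V Gd kap' (b + κ) (y + DS S * z))]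
      have h2 : (Kr k (DS S) y).filter (fun κ => Lonely S q V Gd kap' (b + κ) (y + DS S * z)) ⊆
          (S.biUnion fun p => (Kr k (DS S) y).filter (fun κ => Star (insert q S) V Gd (b + κ)
            (y + DS S * z) ∧ sm p (cp S y p κ))) ∪
          (Kr k (DS S) y).filter (fun κ => Lonely S q V Gd kap' (b + κ)
            (y + DS S * z) ∧ ∀ p ∈ S, ¬ sm p (cp S y p κ)) := by
        intro κ hκ
        rw [mem_filter] at hκ
        rw [mem_union, mem_biUnion]
        by_cases h : ∃ p ∈ S, sm p (cp S y p κ)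
        · left
          obtain ⟨p, hp, hs⟩ := h
          exact ⟨p, hp, mem_filter.mpr ⟨hκ.1, hκ.2.1, hs⟩⟩
        · right
          push Not at h
          exact mem_filter.mpr ⟨hκ.1, hκ.2, h⟩
      have h3 := (card_le_card h2).trans ((card_union_le _ _).trans
        (Nat.add_le_add_right card_biUnion_le _))
      exact_mod_cast h3
    have ha : ∀ p ∈ S, ∑ z ∈ range q, (((Kr k (DS S) y).filter (fun κ =>
        Star (insert q S) V Gd (b + κ) (y + DS S * z) ∧ sm p (cp S y p κ))).card : ℝ) ≤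
        kap * q * ν ^ (S.card - 1) * (DS S : ℝ) ^ k := by
      intro p hp
      have h2 : ∀ z ∈ range q, (((Kr k (DS S) y).filter (fun κ =>
          Star (insert q S) V Gd (b + κ) (y + DS S * z) ∧ sm p (cp S y p κ))).card : ℝ) ≤
          (((Kr k p (w p)).filter (fun a => Cr q V (Gd p) c p (w p) z (bb p + a) ∧
            sm p a)).card : ℝ) * (ν ^ (S.erase p).card * (DS (S.erase p) : ℝ) ^ k) := by
        intro z _
        have h3 : ((Kr k (DS S) y).filter (fun κ =>
            Star (insert q S) V Gd (b + κ) (y + DS S * z) ∧ sm p (cp S y p κ))).card ≤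
            ∏ p' ∈ S, ((Kr k p' (w p')).filter
              (fun a => Cr q V (Gd p') c p' (w p') z (bb p' + a) ∧ (p' = p → sm p' a))).card := by
          refine le_trans (card_le_card ?_)
            (cntA hCO hS y (fun p' a => Cr q V (Gd p') c p' (w p') z (bb p' + a) ∧
              (p' = p → sm p' a)))
          intro κ hκ
          rw [mem_filter] at hκ ⊢
          refine ⟨hκ.1, fun p' hp' => ⟨hstar κ hκ.1 z hκ.2.1 p' hp', ?_⟩⟩
          rintro rfl
          exact hκ.2.2
        rw [← mul_prod_erase S _ hp] at h3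
        have h4 : (((Kr k p (w p)).filter
              (fun a => Cr q V (Gd p) c p (w p) z (bb p + a) ∧ (p = p → sm p a))).card : ℝ) =
            (((Kr k p (w p)).filter (fun a => Cr q V (Gd p) c p (w p) z (bb p + a) ∧
            sm p a)).card : ℝ) := by
          simp only [true_implies]
        calc _ ≤ ((_ : ℕ) : ℝ) := Nat.cast_le.mpr h3
          _ = _ := by
            push_cast
            rfl
          _ ≤ _ := by
            rw [h4, ← hprod]
            refine mul_le_mul_of_nonneg_left ?_ (by positivity)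
            refine Finset.prod_le_prod (fun _ _ => by positivity) (fun p' hp' => ?_)
            refine le_trans ?_ (hB p' (mem_of_mem_erase hp') z)
            refine Nat.cast_le.mpr (card_le_card ?_)
            intro a ha
            rw [mem_filter] at ha ⊢
            exact ⟨ha.1, ha.2.1⟩
      have h5 : ∑ z ∈ range q, (((Kr k p (w p)).filter (fun a =>
          Cr q V (Gd p) c p (w p) z (bb p + a) ∧ sm p a)).card : ℝ) =
          lon p q V (Gd p) (kap / 2) (bb p) (w p) := by
        rw [dbl (Kr k p (w p)) (range q)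
          (fun a z => Cr q V (Gd p) c p (w p) z (bb p + a) ∧ sm p a)]
        unfold lon
        refine Finset.sum_congr rfl fun a ha => ?_
        by_cases hs : acr p q V (Gd p) (bb p + a) (w p) < kap / 2
        · rw [if_pos hs, hacr p hp a ha]
          have hs' : sm p a := hs
          simp only [hs', and_true]
        · rw [if_neg hs]
          have hs' : ¬ sm p a := hs
          simp only [hs', and_false, Finset.filter_false, Finset.card_empty, Nat.cast_zero]
      have h6 : lon p q V (Gd p) (kap / 2) (bb p) (w p) ≤ kap * q * (p : ℝ) ^ k :=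
        (not_le.mp (hbad p hp)).le
      have h7 : (S.erase p).card = S.card - 1 := card_erase_of_mem hp
      have h8 : (DS S : ℝ) = p * (DS (S.erase p) : ℝ) := by
        rw [← DS_erase hp]
        push_cast
        rfl
      calc _ ≤ ∑ z ∈ range q, (((Kr k p (w p)).filter (fun a =>
            Cr q V (Gd p) c p (w p) z (bb p + a) ∧ sm p a)).card : ℝ) *
              (ν ^ (S.erase p).card * (DS (S.erase p) : ℝ) ^ k) := sum_le_sum h2
        _ = lon p q V (Gd p) (kap / 2) (bb p) (w p) *
              (ν ^ (S.erase p).card * (DS (S.erase p) : ℝ) ^ k) := by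
            rw [← sum_mul, h5]
        _ ≤ kap * q * (p : ℝ) ^ k * (ν ^ (S.erase p).card * (DS (S.erase p) : ℝ) ^ k) :=
            mul_le_mul_of_nonneg_right h6 (by positivity)
        _ = _ := by
            rw [h7, h8, mul_pow]
            ring
    have hn : ∀ p ∈ S, (((Kr k p (w p)).filter (fun a => ¬ sm p a)).card : ℝ) ≤
        2 * ν / kap * (p : ℝ) ^ k := by
      intro p hp
      have h2 : (((Kr k p (w p)).filter (fun a => ¬ sm p a)).card : ℝ) * (kap / 2 * q) ≤
          q * (ν * (p : ℝ) ^ k) := by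
        calc (((Kr k p (w p)).filter (fun a => ¬ sm p a)).card : ℝ) * (kap / 2 * q)
            = ∑ a ∈ (Kr k p (w p)).filter (fun a => ¬ sm p a), (kap / 2 * q) := by
              rw [sum_const, nsmul_eq_mul]
          _ ≤ ∑ a ∈ (Kr k p (w p)).filter (fun a => ¬ sm p a),
              (q : ℝ) * acr p q V (Gd p) (bb p + a) (w p) := by
              refine sum_le_sum fun a ha => ?_
              have h3 : kap / 2 ≤ acr p q V (Gd p) (bb p + a) (w p) :=
                not_lt.mp (mem_filter.mp ha).2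
              rw [mul_comm]
              exact mul_le_mul_of_nonneg_left h3 hq0.le
          _ ≤ ∑ a ∈ Kr k p (w p), (q : ℝ) * acr p q V (Gd p) (bb p + a) (w p) := by
              refine sum_le_sum_of_subset_of_nonneg (filter_subset _ _) fun a ha _ => ?_
              rw [hacr p hp a ha]
              positivity
          _ = ∑ a ∈ Kr k p (w p), (((range q).filter
              (fun z => Cr q V (Gd p) c p (w p) z (bb p + a))).card : ℝ) :=
              sum_congr rfl fun a ha => hacr p hp a ha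
          _ = ∑ z ∈ range q, (((Kr k p (w p)).filter
              (fun a => Cr q V (Gd p) c p (w p) z (bb p + a))).card : ℝ) :=
              (dbl (Kr k p (w p)) (range q)
                (fun a z => Cr q V (Gd p) c p (w p) z (bb p + a))).symm
          _ ≤ ∑ z ∈ range q, ν * (p : ℝ) ^ k := sum_le_sum fun z _ => hB p hp z
          _ = _ := by rw [sum_const, card_range, nsmul_eq_mul]
      have h3 : 2 * ν / kap * (p : ℝ) ^ k = q * (ν * (p : ℝ) ^ k) / (kap / 2 * q) := by
        field_simp
      rw [h3, le_div_iff₀ (by positivity)]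
      exact h2
    have hb2 : ∑ z ∈ range q, (((Kr k (DS S) y).filter (fun κ => Lonely S q V Gd kap' (b + κ)
          (y + DS S * z) ∧ ∀ p ∈ S, ¬ sm p (cp S y p κ))).card : ℝ) ≤
        (2 * ν / kap) ^ S.card * (DS S : ℝ) ^ k * (kap' * q) := by
      rw [dbl (Kr k (DS S) y) (range q) (fun κ z => Lonely S q V Gd kap' (b + κ)
          (y + DS S * z) ∧ ∀ p ∈ S, ¬ sm p (cp S y p κ))]
      have h2 : ∀ κ ∈ Kr k (DS S) y, (((range q).filter (fun z => Lonely S q V Gd kap' (b + κ)
          (y + DS S * z) ∧ ∀ p ∈ S, ¬ sm p (cp S y p κ))).card : ℝ) ≤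
          if ∀ p ∈ S, ¬ sm p (cp S y p κ) then kap' * q else 0 := by
        intro κ _
        by_cases h : ∀ p ∈ S, ¬ sm p (cp S y p κ)
        · rw [if_pos h]
          refine le_trans ?_ (lonely_le hkap' hy (b + κ) (V := V) (Gd := Gd))
          refine Nat.cast_le.mpr (card_le_card ?_)
          intro z hz
          rw [mem_filter] at hz ⊢
          exact ⟨hz.1, hz.2.1⟩
        · rw [if_neg h]
          have : (range q).filter (fun z => Lonely S q V Gd kap' (b + κ)
              (y + DS S * z) ∧ ∀ p ∈ S, ¬ sm p (cp S y p κ)) = ∅ := by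
            rw [filter_eq_empty_iff]
            intro z _ hc
            exact h hc.2
          rw [this, card_empty, Nat.cast_zero]
      calc _ ≤ ∑ κ ∈ Kr k (DS S) y, if ∀ p ∈ S, ¬ sm p (cp S y p κ) then kap' * q else 0 :=
            sum_le_sum h2
        _ = (((Kr k (DS S) y).filter (fun κ => ∀ p ∈ S, ¬ sm p (cp S y p κ))).card : ℝ) *
            (kap' * q) := by
            rw [← sum_filter, sum_const, nsmul_eq_mul]
        _ ≤ _ := by
            refine mul_le_mul_of_nonneg_right ?_ (by positivity)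
            have h3 : ((Kr k (DS S) y).filter (fun κ => ∀ p ∈ S, ¬ sm p (cp S y p κ))).card ≤
                ∏ p ∈ S, ((Kr k p (w p)).filter (fun a => ¬ sm p a)).card :=
              cntA hCO hS y (fun p a => ¬ sm p a)
            calc _ ≤ ((∏ p ∈ S, ((Kr k p (w p)).filter (fun a => ¬ sm p a)).card : ℕ) : ℝ) :=
                  Nat.cast_le.mpr h3
              _ = ∏ p ∈ S, (((Kr k p (w p)).filter (fun a => ¬ sm p a)).card : ℝ) := by
                push_cast
                rfl
              _ ≤ ∏ p ∈ S, (2 * ν / kap * (p : ℝ) ^ k) :=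
                Finset.prod_le_prod (fun _ _ => by positivity) hn
              _ = _ := by
                rw [Finset.prod_mul_distrib, Finset.prod_const, Finset.prod_pow]
                unfold DS
                push_cast
                rfl
    calc _ ≤ ∑ z ∈ range q, (∑ p ∈ S, (((Kr k (DS S) y).filter (fun κ =>
          Star (insert q S) V Gd (b + κ) (y + DS S * z) ∧ sm p (cp S y p κ))).card : ℝ) +
        (((Kr k (DS S) y).filter (fun κ => Lonely S q V Gd kap' (b + κ)
          (y + DS S * z) ∧ ∀ p ∈ S, ¬ sm p (cp S y p κ))).card : ℝ)) := sum_le_sum h1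
      _ = ∑ p ∈ S, ∑ z ∈ range q, (((Kr k (DS S) y).filter (fun κ =>
          Star (insert q S) V Gd (b + κ) (y + DS S * z) ∧ sm p (cp S y p κ))).card : ℝ) +
        ∑ z ∈ range q, (((Kr k (DS S) y).filter (fun κ => Lonely S q V Gd kap' (b + κ)
          (y + DS S * z) ∧ ∀ p ∈ S, ¬ sm p (cp S y p κ))).card : ℝ) := by
          rw [sum_add_distrib, sum_comm]
      _ ≤ ∑ p ∈ S, kap * q * ν ^ (S.card - 1) * (DS S : ℝ) ^ k +
          (2 * ν / kap) ^ S.card * (DS S : ℝ) ^ k * (kap' * q) :=
          add_le_add (sum_le_sum ha) hb2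
      _ = _ := by
          rw [sum_const, nsmul_eq_mul]
          ring

end Pool.Agent.H63.LVP
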